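import Mathlib

set_option autoImplicit false

open Matrix MatrixGroups Pointwise

namespace Pool.Agent.Results.MP_b8636a_al.Counter

lemma up (g : SL(2, ℤ)) (h : g ∈ Subgroup.closure
    {g : SL(2, ℤ) | ∃ ξ : ℤ, (g : Matrix (Fin 2) (Fin 2) ℤ) = !![1, ξ; 0, 1]}) :
    ∃ ξ : ℤ, (g : Matrix (Fin 2) (Fin 2) ℤ) = !![1, ξ; 0, 1] := by
  induction h using Subgroup.closure_induction with
  | mem x hx => exact hx
  | one => exact ⟨0, by simp [Matrix.one_fin_two]⟩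
  | mul x y _ _ h1 h2 =>
    obtain ⟨a, ha⟩ := h1
    obtain ⟨b, hb⟩ := h2
    exact ⟨b + a, by simp [ha, hb]⟩
  | inv x _ h1 =>
    obtain ⟨a, ha⟩ := h1
    exact ⟨-a, by simp [ha, Matrix.SpecialLinearGroup.coe_inv, Matrix.adjugate_fin_two]⟩

lemma lo (g : SL(2, ℤ)) (h : g ∈ Subgroup.closure
    {g : SL(2, ℤ) | ∃ ξ : ℤ, (g : Matrix (Fin 2) (Fin 2) ℤ) = !![1, 0; ξ, 1]}) :
    ∃ ξ : ℤ, (g : Matrix (Fin 2) (Fin 2) ℤ) = !![1, 0; ξ, 1] := by
  induction h using Subgroup.closure_induction with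
  | mem x hx => exact hx
  | one => exact ⟨0, by simp [Matrix.one_fin_two]⟩
  | mul x y _ _ h1 h2 =>
    obtain ⟨a, ha⟩ := h1
    obtain ⟨b, hb⟩ := h2
    exact ⟨a + b, by simp [ha, hb]⟩
  | inv x _ h1 =>
    obtain ⟨a, ha⟩ := h1
    exact ⟨-a, by simp [ha, Matrix.SpecialLinearGroup.coe_inv, Matrix.adjugate_fin_two]⟩

lemma arith (a b c t : ℤ) (h1 : (1 + a * b) * c + a = 21) (h2 : 1 + a * b + 21 * t = 8) : False := by
  have hc : c ≠ 0 := by
    rintro rfl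
    obtain rfl : a = 21 := by simpa using h1
    omega
  have ha : |a| ≤ 23 := by
    have e : |1 + a * b| * |c| = |21 - a| := by rw [← abs_mul]; congr 1; omega
    have c1 : 1 ≤ |c| := Int.one_le_abs hc
    have e2 : |1 + a * b| ≤ 21 + |a| := by
      have := abs_nonneg (1 + a * b)
      have := abs_sub (21 : ℤ) a
      simp only [Nat.abs_ofNat] at this
      nlinarith
    by_cases hb : 2 ≤ |b|
    · have : |a * b| ≤ |1 + a * b| + 1 := by
        have := abs_sub (1 + a * b) 1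
        simpa using this
      rw [abs_mul] at this
      have := abs_nonneg a
      nlinarith
    · have : b = 0 ∨ b = 1 ∨ b = -1 := by
        rcases abs_cases b with h | h <;> omega
      rcases this with rfl | rfl | rfl
      · omega
      · have : a + 1 ∣ 22 := ⟨c + 1, by linarith⟩
        have := Int.natAbs_le_of_dvd_ne_zero this (by norm_num)
        rcases abs_cases a with h | h <;> omega
      · have : 1 - a ∣ 20 := ⟨c - 1, by linarith⟩
        have := Int.natAbs_le_of_dvd_ne_zero this (by norm_num)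
        rcases abs_cases a with h | h <;> omega
  have hd : 1 + a * b ∣ 21 - a := ⟨c, by linarith⟩
  have ha' := abs_le.1 ha
  have h21 : a ≠ 21 := by rintro rfl; omega
  have := Int.natAbs_le_of_dvd_ne_zero hd (by omega)
  have ht : t = 0 ∨ t = 1 ∨ t = -1 ∨ t = 2 := by omega
  obtain ⟨a1, a2⟩ := ha'
  have e : 1 + a * b = 8 - 21 * t := by omega
  rw [e] at h1
  rcases ht with rfl | rfl | rfl | rfl <;> interval_cases a <;> omega

theorem result :
    let U : Set SL(2, ℤ) := Subgroup.closure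
      {g : SL(2, ℤ) | ∃ ξ : ℤ, (g : Matrix (Fin 2) (Fin 2) ℤ) = !![1, ξ; 0, 1]}
    let V : Set SL(2, ℤ) := Subgroup.closure
      {g : SL(2, ℤ) | ∃ ξ : ℤ, (g : Matrix (Fin 2) (Fin 2) ℤ) = !![1, 0; ξ, 1]}
    V * U * V * U * V ≠ U * V * U * V * U := by
  intro U V h
  let x : ℤ → SL(2, ℤ) := fun ξ => ⟨!![1, ξ; 0, 1], by simp⟩
  let y : ℤ → SL(2, ℤ) := fun ξ => ⟨!![1, 0; ξ, 1], by simp⟩
  have hx : ∀ ξ, x ξ ∈ U := fun ξ => Subgroup.subset_closure ⟨ξ, rfl⟩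
  have hy : ∀ ξ, y ξ ∈ V := fun ξ => Subgroup.subset_closure ⟨ξ, rfl⟩
  have hg : x 2 * y 1 * x 1 * y 1 * x 2 ∈ V * U * V * U * V := by
    rw [h]
    exact Set.mul_mem_mul (Set.mul_mem_mul (Set.mul_mem_mul (Set.mul_mem_mul (hx _) (hy _)) (hx _))
      (hy _)) (hx _)
  obtain ⟨_, ⟨_, ⟨_, ⟨g1, h1, g2, h2, rfl⟩, g3, h3, rfl⟩, g4, h4, rfl⟩, g5, h5, e⟩ := hg
  obtain ⟨s, h1⟩ := lo _ h1
  obtain ⟨a, h2⟩ := up _ h2
  obtain ⟨b, h3⟩ := lo _ h3
  obtain ⟨c, h4⟩ := up _ h4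
  obtain ⟨t, h5⟩ := lo _ h5
  have e' := congrArg (fun g : SL(2, ℤ) => (g : Matrix (Fin 2) (Fin 2) ℤ)) e
  simp only [Matrix.SpecialLinearGroup.coe_mul, h1, h2, h3, h4, h5, x, y] at e'
  have e1 := congrFun (congrFun e' 0) 0
  have e2 := congrFun (congrFun e' 0) 1
  simp at e1 e2
  exact arith a b c t e2 (by rw [← e2]; exact e1)

end Pool.Agent.Results.MP_b8636a_al.Counter
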